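import Pool.Agent.X180.OP.Non

/-!
# Nonvanishing and additivity for pairs over orbifold towers over linear systems

Let `(X, Δ)` be a projective pair and

  `X ⇢ W_l ⇢ ... ⇢ W_1 ⇢ W_0`, `l ≥ 0`,

dominant rational maps, where `W_0`, of dimension `D 0 ≥ 1`, is the image of the rational map of a
linear system `|V|` on `X`, without fixed components, of dimension `n`. Suppose:

* (the base) `φ i` (`i < q`) define members of `|V|` which span `V`, in arbitrary position; let `k` be
  the greatest number such that `V` is a direct sum of `k` nonzero subspaces each of which contains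
  some of the `φ i`, and which together contain all of them. If the prime divisor `P` of `X` is a
  component of some of the members then in two members of the same subspace the multiplicities of `P`
  differ by at least `t (1 - Δ P)`, where `t ≥ (n + 3 - k) (n - D 0 + 1) (n - D 0 + 2) / 2`;
* (the steps of the tower, of any log Kodaira dimension `≥ 0`) for each `i < l` the fibres of
  `W_{i+1}` over `W_i`, *with the boundary `Δ` and the multiplicities of the fibres of `X` over
  `W_{i+1}`*, correspond to moving log canonical arrangements: there is a variety `X'` with a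
  generically finite map `X' ⇢ X` (ramified anywhere) and a rational map over `W_i` of `X'` to a
  relative product of projective spaces `P^{r_1} × ... × P^{r_c}`, `r_j ≥ 1`, whose fibres are, up to
  finite maps, the fibres of `X' ⇢ W_{i+1}`; in each `P^{r_j}` there are any hyperplanes `A j k = 0`,
  in any position, which move with the point of a variety finite over `W_i`, with weights `w j k ≥ 0`,
  such that the arrangement is log canonical (the sum of the weights of hyperplanes with a common
  point is at most the codimension of their intersection) and `∑ k, w j k ≥ r_j + 1`. If `Q` is a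
  place of the function field of `X'` over a prime divisor `P` of `X` which dominates `W_i` but not
  `W_{i+1}`, with ramification index `ε`, and `e j k` are the multiplicities of the hyperplanes at
  `Q`, not all zero, then `ε (1 - Δ P) ≤ ∑ (mx_j - ∑ w j k e j k)`, where `mx_j` is the greatest sum
  of `r_j + 1` of the `e j k` whose hyperplanes have no common point (`ε (1 - Δ P) ≤ 1`, if all
  `e j k` are zero). Let `λ_i` be the sum of the `r_j` with `∑ k, w j k > r_j + 1`;
* (the fibres of `X` over `W_l`, of any log Kodaira dimension) there is a correspondence `X'` as above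
  between `X` and a relative product `P^{r_1} × ... × P^{r_c}` over `W_l`, with log canonical moving
  hyperplane arrangements with weights in `[0, 1]` (with any sum) and the same condition at the prime
  divisors of `X` which dominate `W_l`; and at the places over the prime divisors of the product
  `K_X + Δ` is at most the pull back of the log canonical divisor of the arrangement (`Cor`). Let `λ`
  be the sum of the `r_j` with `∑ k, w j k > r_j + 1`.

Then `K_X + Δ` is pseudo-effective if and only if it is `ℚ`-effective, if and only if
`∑ k, w j k ≥ r_j + 1` for all `j` (for the fibres over `W_l`), and then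

  `κ(K_X + Δ) ≥ ∑ λ_i + λ`, and `κ(K_X + Δ) ≥ D 0 + 1 - k + ∑ λ_i + λ`

if `t > (n + 3 - k) (n - D 0 + 1) (n - D 0 + 2) / 2`; otherwise the Kodaira dimension and the numerical
dimension are `-∞`. So neither the base nor the steps need be of log general type: for instance `W_0`
may be a projective space with multiplicities for which its log Kodaira dimension is `0`, and the steps
may be projective bundles such that, with the multiple fibres of `X`, their fibres are orbifolds of log
Kodaira dimension `0`.

The language and the definitions of `Pool.Agent.Y172` are used: `X` is given by the homogeneous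
coordinates `y` of its generic point, with values in the function field `K` of `X`; the prime divisors
of `X` are places `P` of `K`, `P.ord` is the order along `P`. `E i` is the function field of `W_i`.
Definitions: `Pool/Agent/X180/OP/Defs`.

Proof: for a step `Z' → Z` of the tower the products of determinants of logarithmic derivatives of the
linear forms are forms along the fibres of `X' → Z`, of degree `dim Z' - dim Z`; their coefficients
with respect to a basis of the vector fields of `Z'` over `Z` are algebraic over the function field of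
`Z'`, and their norms are estimated at the prime divisors of `X` (`Pool.Agent.X180.Orb`). The forms of
the steps are multiplied with adapted regular vector fields, and with generalised Wronskians of `V`
(`Pool.Agent.TH585.SV.lin_fib`).
-/

set_option autoImplicit false

open FF Pool.Agent.W602.GT Pool.Agent.Y172 Pool.Agent.Y191 Pool.Agent.X180.OP

namespace Pool.Agent.Results.MP_66b48b_ag.OrbifoldTowerNonvanishing

section

variable {K : Type} [Field K] [Algebra ℂ K] {N : ℕ}

/-- The function field of the image of the rational map which is given by the linear system `V`: the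
field generated by the quotients of the members. -/
noncomputable def ImageField (V : Submodule ℂ K) : IntermediateField ℂ K :=
  IntermediateField.adjoin ℂ {y : K | ∃ f ∈ V, ∃ g ∈ V, y = f / g}

/-- `V` has a basis of `n + 1` members which are divided into `k` nonempty groups such that `φ i` is
a linear combination of the members of the group `γ i`. -/
def Splits (n : ℕ) {q k : ℕ} (V : Submodule ℂ K) (φ : Fin q → K) (γ : Fin q → Fin k) : Prop :=
  ∃ (x : Fin (n + 1) → K) (g : Fin (n + 1) → Fin k), LinearIndependent ℂ x ∧
    Submodule.span ℂ (Set.range x) = V ∧ Function.Surjective g ∧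
    ∀ i, φ i ∈ Submodule.span ℂ (x '' {a | g a = γ i})

/-- The condition on the multiplicities: if the prime divisor `P` of `X` is a component of one of the
divisors given by the `φ i` (the order of `φ i` at `P` is not the minimum `a` of the orders of the
members of `V`), then for some `φ i`, `φ i'` of the same group the difference of the multiplicities of
`P` is at least `t (1 - Δ P)`. -/
def GroupMultiplicities (y : Fin (N + 1) → K) (Δ : Place ℂ K → ℚ) {q k : ℕ} (V : Submodule ℂ K)
    (φ : Fin q → K) (γ : Fin q → Fin k) (t : ℝ) : Prop :=
  ∀ P : Place ℂ K, IsPrimeDivisor y P → ∀ a : ℤ, (∀ f ∈ V, f = 0 ∨ a ≤ P.ord f) →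
    (∃ f ∈ V, f ≠ 0 ∧ P.ord f = a) → (∃ i, P.ord (φ i) ≠ a) →
    ∃ i i', γ i' = γ i ∧ t * (1 - Δ P) ≤ ((P.ord (φ i) - P.ord (φ i') : ℤ) : ℝ)

end

/-- **Nonvanishing.** Let `(X, Δ)` be a projective pair, `V` a linear system on `X` of dimension `n`
whose rational map has an image `W_0` of dimension `D 0`, `1 ≤ D 0 ≤ n`, and `φ i` nonzero members
which span `V`, divided into `k` groups as in `Splits`, but not into `k + 1` groups. Let
`R = n + 3 - k` and `t ≥ R (n - D 0 + 1) (n - D 0 + 2) / 2` a number for which the condition on the
multiplicities holds. Let `X ⇢ W_l ⇢ ... ⇢ W_0` be an orbifold tower, of which the steps have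
dimensions `e i` and log Kodaira dimensions `lam i`, and let the fibres of `X` over `W_l` be as in
`Fibres`. If `r j + 1 ≤ ∑ i, w j i` for all `j`, then `κ(K_X + Δ) ≥ ∑ i, lam i + big`, and
`κ(K_X + Δ) ≥ κ₀ + ∑ i, lam i + big` with `κ₀ = D 0 + 1 - k`, if
`t > R (n - D 0 + 1) (n - D 0 + 2) / 2`; otherwise the Kodaira dimension and the numerical dimension of
`K_X + Δ` are `-∞`. -/
theorem result {n q : ℕ} (K : Type) [Field K] [Algebra ℂ K] (N l c k : ℕ)
    (E : Fin (l + 1) → IntermediateField ℂ K) (D : Fin (l + 1) → ℕ) (e lam : Fin l → ℕ)
    (hd : 1 ≤ D 0) (hdn : D 0 ≤ n) (r s : Fin c → ℕ) (y : Fin (N + 1) → K) (Δ : Place ℂ K → ℚ)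
    (hy : IsPair y (D (Fin.last l) + ∑ j, r j) Δ)
    (V : Submodule ℂ K) (φ : Fin q → K) (hφ0 : ∀ i, φ i ≠ 0)
    (hφ : Submodule.span ℂ (Set.range φ) = V) (γ : Fin q → Fin k) (hγ : Splits n V φ γ)
    (hk : ∀ γ' : Fin q → Fin (k + 1), ¬ Splits n V φ γ') (R : ℕ) (hR : R + k = n + 3) (t : ℝ)
    (ht : (R : ℝ) * (((n : ℝ) - D 0 + 1) * ((n : ℝ) - D 0 + 2)) ≤ 2 * t)
    (hm : GroupMultiplicities y Δ V φ γ t) (hE0 : E 0 = ImageField V)
    (hT : IsOrbifoldTower {P | IsPrimeDivisor y P} (fun P => (Δ P : ℝ)) E D e lam)
    (w : ∀ j, Fin (s j) → ℚ)
    (hF : Fibres y (D (Fin.last l) + ∑ j, r j) Δ {P | IsPrimeDivisor y P} (E (Fin.last l)) r s w) :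
    Nonvanishing y (D (Fin.last l) + ∑ j, r j) Δ (∑ i, lam i + big r s w) r s w ∧
    ((R : ℝ) * (((n : ℝ) - D 0 + 1) * ((n : ℝ) - D 0 + 2)) < 2 * t → ∀ κ₀ : ℕ, κ₀ + k = D 0 + 1 →
      Nonvanishing y (D (Fin.last l) + ∑ j, r j) Δ (κ₀ + ∑ i, lam i + big r s w) r s w) := by
  have hn : D (Fin.last l) + ∑ j, r j = D 0 + (∑ i, e i + ∑ j, r j) := by
    rw [Pool.Agent.X180.TP.dims fun i => (hT.2 i).2.1, add_assoc]
  have hV : Algebra.trdeg ℂ (ImageField V) = (D 0 : ℕ) := by
    rw [← hE0]
    exact hT.1 0
  have hK : Algebra.trdeg ℂ K = (D 0 + (∑ i, e i + ∑ j, r j) : ℕ) := by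
    rw [hy.2.1, hn]
  have h2 := fun (lam' : ℕ) (hθ : Pool.Agent.X180.Tow.HasForms (D 0 + (∑ i, e i + ∑ j, r j))
      {P | IsPrimeDivisor y P} (Pool.Agent.X180.Iso.hor (ImageField V) fun P => (Δ P : ℝ))
      (ImageField V) (∑ i, e i + ∑ j, r j) lam') =>
    Pool.Agent.X180.Iso.sys_pair (c := k) (X := {P | IsPrimeDivisor y P})
      (δ := fun P => (Δ P : ℝ)) hd hdn hK hV hφ0 hφ hγ hk (R := R) (Or.inl hR) ht
      (fun P hP => Rat.cast_nonneg.2 (hy.2.2.1 P hP)) (fun P hPX _ a ha hb hc =>
        hm P hPX a ha hb hc) hθ
  refine ⟨?_, fun ht' κ₀ hκ₀ => ?_⟩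
  · have h3 := non_gen (k := 0) hy hT hF fun lam' h0 => by
      rw [hE0] at h0
      rw [zero_add]
      exact (h2 lam' h0).1
    rwa [zero_add] at h3
  · refine non_gen (k := κ₀) hy hT hF fun lam' h0 => ?_
    rw [hE0] at h0
    exact (h2 lam' h0).2 ht' κ₀ hκ₀

end Pool.Agent.Results.MP_66b48b_ag.OrbifoldTowerNonvanishing
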