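import Pool.Agent.X324.SA.PairNV

set_option autoImplicit false

/-!
# Non-vanishing for pairs on quotients `(A × F) / G`

Let `X = (A × F) / G` be projective, where `A = V / Λ` is an abelian variety, `F` a normal projective
`ℚ`-factorial variety with free class group, and `G` a finite group which acts on both factors; the
action may have fixed points and fixed divisors, so that `K_X` may be negative in the direction of
`A`. Let `Δ` be an effective `ℚ`-divisor on `X`, not necessarily a sum of pullbacks from the two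
factors, and `L = O_X(m (K_X + Δ))` integral. The theorem says: if non-vanishing holds for the general
fibre of `X → A / G`, which is a quotient of `F` with the restriction of `Δ`, then it holds for
`(X, Δ)`: if `K_X + Δ` is pseudoeffective then some power of `L` has a nonzero section, so that
`K_X + Δ` is even `ℚ`-linearly equivalent to an effective divisor. The condition on the fibre holds
for all `Δ` if the effective cone of `F` is closed and spanned by integral classes, for instance if
`F` is a Mori dream space, and for lc pairs with `dim F ≤ 3`.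

`Cl`, `Semistable`, `Grp`, `IsQuotient`, `Sheaf`, `Sheaf.IsPowSection`, `IsClass`, `N1`, `effective`,
`coneHull`, `effCone` and `vert` are defined in `Pool.Agent.X324.CF.Defs`; `Sheaf.pow` and
`Sheaf.tensor` in `Pool.Agent.X324.CF.Shf`; `real` in `Pool.Agent.X324.CG.Defs`;
`IsCanonicalSheaf` in `Pool.Agent.X324.SA.PairDefs`; `IsRamification` in
`Pool.Agent.TH735.AQ.MirDefs`.
-/

namespace Pool.Agent.Results.MP_66b48b_ag.ProductQuotientNonvanishing

open Pool.Agent.W594.SYZ2 Pool.Agent.X324.CF
open Pool.Agent.X324.CG (real)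
open Pool.Agent.X324.SA (IsCanonicalSheaf)

/-- The space `N^1(X)`. (In the absolute case the linear subspace `E` of `V` of the general
definitions is `V` itself, embedded by the identity map.) -/
abbrev NS {V R : Type*} [NormedAddCommGroup V] [NormedSpace ℂ V] [CommRing R] [Algebra ℂ R] {ρ : ℕ}
    (𝒜 : Cl ρ → Submodule ℂ R) (Γ : Grp V R) : Type _ :=
  N1 𝒜 Γ (LinearMap.id : V →ₗ[ℂ] V)

/-- The sheaf `𝓛` is pseudoeffective: its class in `N^1(X)` is in the closure of the effective
cone. -/
def IsPseudoEffective {V R : Type*} [NormedAddCommGroup V] [NormedSpace ℂ V] [CommRing R] [Algebra ℂ R]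
    {ρ : ℕ} {𝒜 : Cl ρ → Submodule ℂ R} {Γ : Grp V R} (𝓛 : Sheaf 𝒜 Γ) : Prop :=
  ∃ x : NS 𝒜 Γ, IsClass LinearMap.id 𝓛 (val x) ∧ x ∈ closure (effCone 𝒜 Γ LinearMap.id)

/-- Non-vanishing for a pair on `F` (or a quotient of `F`) for which the class of `m (K + Δ)` on `F` is
`δ`: if `δ` is in the closure of the effective cone of `F` then a positive multiple of it has a
nonzero section. -/
def Nonvanishing {R : Type*} [CommRing R] [Algebra ℂ R] {ρ : ℕ} (𝒜 : Cl ρ → Submodule ℂ R)
    (δ : Cl ρ) : Prop :=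
  real δ ∈ closure (coneHull {b | ∃ β, (∃ r ∈ 𝒜 β, r ≠ 0) ∧ b = real β}) →
    ∃ k : ℕ, 1 ≤ k ∧ ∃ r ∈ 𝒜 (k • δ), r ≠ 0

/-- Let `X = (V × F) / Γ` be the quotient of the product of an abelian variety and `F` by a finite
group, `𝒦` the canonical sheaf of `X`, and `Δ` the effective divisor such that `m Δ` is the divisor of
the section `B` of the sheaf `ℬ`. Suppose that non-vanishing holds for the general fibre of the map
from `X` to the quotient of the abelian variety; the class of `m (K + Δ)` on `F` is `m K + deg ℬ`. If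
`L = O_X(m (K_X + Δ))` is pseudoeffective then a positive power of it has a nonzero section. -/
theorem result {V R : Type*} [NormedAddCommGroup V] [NormedSpace ℂ V] [FiniteDimensional ℂ V]
    [CommRing R] [IsDomain R] [Algebra ℂ R] {ρ : ℕ}
    (𝒜 : Cl ρ → Submodule ℂ R) [GradedAlgebra 𝒜] (u : Cl ρ)
    (hfin : ∀ β, FiniteDimensional ℂ (𝒜 β)) (Γ : Grp V R) (hX : IsQuotient 𝒜 u Γ)
    (K : Cl ρ) (𝒦 : Sheaf 𝒜 Γ) (h𝒦 : IsCanonicalSheaf 𝒦 K)
    (m : ℕ) (ℬ : Sheaf 𝒜 Γ) (B : V → R) (hB : ℬ.IsSection B) (hB0 : ∃ v, B v ≠ 0)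
    (hfib : Nonvanishing 𝒜 (m • K + ℬ.deg)) (hpsef : IsPseudoEffective ((𝒦.pow m).tensor ℬ)) :
    ∃ N : ℕ, 1 ≤ N ∧ ∃ f, ((𝒦.pow m).tensor ℬ).IsPowSection N f ∧ ∃ v, f v ≠ 0 := by
  have hdeg : ((𝒦.pow m).tensor ℬ).deg = m • K + ℬ.deg := by
    change m • 𝒦.deg + ℬ.deg = _
    rw [h𝒦.deg]
  obtain ⟨x, ⟨⟨H, hH, h1⟩, h2⟩, hx⟩ := hpsef
  obtain ⟨h3, h4⟩ := Pool.Agent.X324.SA.psef_sub hX hx
  have h5 : (val x).2 = real ((𝒦.pow m).tensor ℬ).deg := funext h2
  rw [h5, hdeg] at h4
  have hn : IsNefForm H := by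
    intro v
    have h6 := h3 v
    rw [h1] at h6
    exact h6
  obtain ⟨k, hk, hr⟩ := hfib h4
  rw [← hdeg] at hr
  exact Pool.Agent.X324.SA.exists_section hX hfin h𝒦 hB hB0 m hH hn hk hr

end Pool.Agent.Results.MP_66b48b_ag.ProductQuotientNonvanishing
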