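import Pool.Agent.X325.OB.LcBase
import Pool.Agent.X180.OP.MixDefsB

/-!
# Weak non-vanishing for pairs over mixed towers over log canonical arrangements

Let `(X, Δ)` be a projective pair (`X` normal, `Δ` an effective `ℚ`-divisor) and

  `X ⇢ W_l ⇢ ... ⇢ W_1 ⇢ W_0 = P^{n_1} × ... × P^{n_m}`, `l ≥ 0`,

dominant rational maps. Suppose:

* (the base) in each factor there are hyperplanes `ℓ i k = 0`, in any position, with weights
  `wt i k ≥ 0` such that the arrangement is log canonical (the sum of the weights of hyperplanes with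
  a common point is at most the codimension of their intersection) and `∑ k, wt i k ≥ n i + 1`: a log
  Calabi-Yau arrangement if `∑ k, wt i k = n i + 1`, and one of log general type otherwise. If the
  `v i k` are the multiplicities of the hyperplanes at a prime divisor `P` of `X`, not all zero, then
  `1 - Δ_P ≤ ∑ i, (mx_i - ∑ k, wt i k * v i k)`, where `mx_i` is the greatest sum of `n i + 1` of the
  `v i k` whose hyperplanes have no common point, with strict inequality if a distinguished hyperplane
  `k0 i` of a log Calabi-Yau factor `i` in `I` has a positive multiplicity at `P`. Here `I` is any set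
  of factors (for instance, the set of the factors of log general type, or the empty set: then there
  are no strict inequalities);
* (the steps of the tower) for each `i < l` one of the following:
  * (orbifold) the fibres of `W_{i+1}` over `W_i`, *with the boundary `Δ` and the multiplicities of
    the fibres of `X` over `W_{i+1}`*, correspond to moving log canonical arrangements, of log Kodaira
    dimension `lam i ≥ 0` (`OrbifoldFibres`);
  * (isotrivial) after a generically finite base change `W_i' → W_i` the variety
    `W_{i+1} ×_{W_i} W_i'` has a generically finite rational map to `W_i' × V_i` over `W_i'`, where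
    `V_i` is a smooth projective variety of Kodaira dimension at least `lam i ≥ 0`;
* (the fibres of `X` over `W_l`, of any log Kodaira dimension) there is a correspondence `X'` between
  `X` and a relative product `P^{r_1} × ... × P^{r_c}` over `W_l`, with log canonical moving
  hyperplane arrangements with weights in `[0, 1]`, with conditions on the multiplicities at the prime
  divisors of `X` which dominate `W_l`, and at the places over the prime divisors of the product
  (`Fibres`).

If `∑ k, w j k ≥ r_j + 1` for all `j` (for the fibres over `W_l`) then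

  `κ(K_X + Δ) ≥ ∑ i ∈ I, n i + ∑ i, lam i + λ`

where `λ` is the sum of the `r_j` with `∑ k, w j k > r_j + 1`; otherwise `κ = ν = -∞`. In particular
`K_X + Δ` is pseudo-effective if and only if a positive multiple is effective: Q1 holds for these
pairs.

The definitions are those of `Pool/Agent/X180/OP/Defs`, `MixDefsB` and `Pool/Agent/Y191/LcForm`,
`LcLow`.
-/

set_option autoImplicit false

open FF Pool.Agent.W602.GT Pool.Agent.Y172 Pool.Agent.Y191
open Pool.Agent.X180.OP (IsPair Fibres Nonvanishing big)
open Pool.Agent.X180.OM (IsMixedTower)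

namespace Pool.Agent.Results.MP_66b48b_ag.TowersOverLogCanonicalBases

variable {m : ℕ} {n q : Fin m → ℕ}

/-- The base: the hyperplanes `ℓ i k = 0` in the projective space of dimension `n i` have weights
`wt i k ≥ 0` with sum at least `n i + 1`, and the arrangements are log canonical (`LcArr`, over the
field of constants). -/
def IsBase (ℓ : ∀ i, Fin (q i) → Fin (n i + 1) → ℂ) (wt : ∀ i, Fin (q i) → ℚ) : Prop :=
  (∀ i, (∀ k, 0 ≤ wt i k) ∧ (n i + 1 : ℚ) ≤ ∑ k, wt i k) ∧
    LcArr (⊥ : IntermediateField ℂ ℂ) ℓ wt

/-- The affine coordinates `x i (j + 1) / x i 0` of the points with the homogeneous coordinates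
`x i`. -/
def affine {K : Type} [Field K] (x : ∀ i, Fin (n i + 1) → K) (b : (i : Fin m) × Fin (n i)) : K :=
  x b.1 b.2.succ / x b.1 0

/-- The multiplicities over the base, at the prime divisors `P` of `X`: if the hyperplanes `ℓ i k`
have the multiplicities `v i k` at `P` (their orders are `a i + v i k`, where `a i` is the minimum of
the orders of the coordinates `x i j`), not all zero, then
`1 - Δ P ≤ ∑ i, (mx_i - ∑ k, wt i k * v i k)`, with strict inequality if the multiplicity of the
distinguished hyperplane `k0 i` is positive for some `i ∈ I` with `∑ k, wt i k = n i + 1`. -/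
def Multiplicities {K : Type} [Field K] [Algebra ℂ K] {N : ℕ} (y : Fin (N + 1) → K)
    (Δ : Place ℂ K → ℚ) (ℓ : ∀ i, Fin (q i) → Fin (n i + 1) → ℂ) (wt : ∀ i, Fin (q i) → ℚ)
    (x : ∀ i, Fin (n i + 1) → K) (I : Finset (Fin m)) (k0 : ∀ i, Fin (q i)) : Prop :=
  ∀ P, IsPrimeDivisor y P → ∀ (a : Fin m → ℤ) (v : ∀ i, Fin (q i) → ℕ),
    (∀ i, MOrd P (fun k j => algebraMap ℂ K (ℓ i k j)) (x i) (a i) (v i)) → (∃ i, v i ≠ 0) →
    1 - Δ P ≤ ∑ i, ((mx ℓ i (v i) : ℚ) - ∑ k, wt i k * v i k) ∧
      ((∃ i ∈ I, ∑ k, wt i k = (n i + 1 : ℚ) ∧ v i (k0 i) ≠ 0) →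
        1 - Δ P < ∑ i, ((mx ℓ i (v i) : ℚ) - ∑ k, wt i k * v i k))

/-- **Nonvanishing.** Let `ℓ i` be log canonical arrangements of hyperplanes with weights `wt i k`
with sums at least `n i + 1`, as in `IsBase`, and `I` a set of factors. Let `(X, Δ)` be a projective
pair and `X ⇢ W_l ⇢ ... ⇢ W_0` a mixed tower over the product `W_0` of the projective spaces, given
by homogeneous coordinates `x i`, whose steps have the (log) Kodaira dimensions `lam i ≥ 0`. Suppose
that the condition `Multiplicities` holds, and let the fibres of `X` over `W_l` be as in `Fibres`. If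
`r j + 1 ≤ ∑ i, w j i` for all `j` then the Kodaira dimension of `K_X + Δ` is at least the sum of the
`n i`, `i ∈ I`, the `lam i` and the `r j` with `r j + 1 < ∑ i, w j i`. Otherwise the Kodaira dimension
and the numerical dimension of `K_X + Δ` are `-∞`. -/
theorem result (ℓ : ∀ i, Fin (q i) → Fin (n i + 1) → ℂ) (wt : ∀ i, Fin (q i) → ℚ)
    (hℓ : IsBase ℓ wt) (I : Finset (Fin m)) (k0 : ∀ i, Fin (q i))
    (K : Type) [Field K] [Algebra ℂ K] (N l c : ℕ)
    (E : Fin (l + 1) → IntermediateField ℂ K) (D : Fin (l + 1) → ℕ) (e lam : Fin l → ℕ)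
    (r s : Fin c → ℕ) (y : Fin (N + 1) → K) (Δ : Place ℂ K → ℚ)
    (hy : IsPair y (D (Fin.last l) + ∑ j, r j) Δ) (x : ∀ i, Fin (n i + 1) → K)
    (hx0 : ∀ i, x i 0 ≠ 0) (hind : AlgebraicIndependent ℂ (affine x))
    (hE0 : E 0 = IntermediateField.adjoin ℂ (Set.range (affine x)))
    (hm : Multiplicities y Δ ℓ wt x I k0)
    (hT : IsMixedTower {P | IsPrimeDivisor y P} (fun P => (Δ P : ℝ)) E D e lam)
    (w : ∀ j, Fin (s j) → ℚ)
    (hF : Fibres y (D (Fin.last l) + ∑ j, r j) Δ {P | IsPrimeDivisor y P} (E (Fin.last l)) r s w) :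
    Nonvanishing y (D (Fin.last l) + ∑ j, r j) Δ (∑ i ∈ I, n i + ∑ i, lam i + big r s w) r s w :=
  Pool.Agent.X325.OB.mixed_nv (fun i => (hℓ.1 i).1) (fun i => (hℓ.1 i).2) hℓ.2 hy hx0 hind hE0 I k0
    hm hT hF

end Pool.Agent.Results.MP_66b48b_ag.TowersOverLogCanonicalBases
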